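import Pool.Agent.PQP.StmtsZ
import Pool.Agent.Helper59_FLX.Der

/-!
# Squad PQP, row ZEX (zonal functions, existence)
-/

set_option autoImplicit false

open scoped InnerProductSpace Topology ContDiff Manifold
open MeasureTheory Filter Set

noncomputable section

namespace Pool.Agent.PQP.H71

open Pool.Agent.Helper42_Paneitz Pool.Agent.Helper82_Vir Pool.Agent.FLX

/-- fourth coordinate of the circle -/
theorem cir_four (φ : ℝ) : ((cir φ : S4) : E5) 4 = Real.cos φ := by
  show (Real.cos φ • ee 4 + Real.sin φ • ee 0 : E5) 4 = Real.cos φ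
  simp

theorem cid_four (φ : ℝ) : (cid φ) 4 = -Real.sin φ := by
  show (-(Real.sin φ) • ee 4 + Real.cos φ • ee 0 : E5) 4 = -Real.sin φ
  simp

theorem cir_cid (φ : ℝ) : ⟪((cir φ : S4) : E5), cid φ⟫_ℝ = 0 := by
  show ⟪(Real.cos φ • ee 4 + Real.sin φ • ee 0 : E5), -(Real.sin φ) • ee 4 + Real.cos φ • ee 0⟫_ℝ = 0
  simp only [inner_add_left, inner_add_right, inner_smul_left, inner_smul_right,
    real_inner_self_eq_norm_sq, norm_ee, inner_ee_ee (by decide : (4 : Fin 5) ≠ 0),
    inner_ee_ee (by decide : (0 : Fin 5) ≠ 4)]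
  simp
  ring

theorem refl_four (x : S4) : ((act P2.reflection x : S4) : E5) 4 = (x : E5) 4 := by
  have h1 : P2.reflection (ee 4) = ee 4 := by
    rw [Submodule.reflection_eq_self_iff]
    exact Submodule.subset_span (by simp)
  have h2 : ⟪ee 4, P2.reflection (x : E5)⟫_ℝ = ⟪ee 4, (x : E5)⟫_ℝ := by
    have h3 := P2.reflection.inner_map_map (ee 4) (x : E5)
    rw [h1] at h3
    exact h3
  rw [inner_ee', inner_ee'] at h2
  exact h2

theorem coord_mem (x : S4) : (x : E5) 4 ∈ Icc (-1 : ℝ) 1 := by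
  have h : |⟪ee 4, (x : E5)⟫_ℝ| ≤ ‖ee 4‖ * ‖(x : E5)‖ := abs_real_inner_le_norm _ _
  rw [norm_ee, S4_norm, inner_ee'] at h
  exact abs_le.1 (by linarith)


/-- the logarithmic derivative of `q` and its derivative -/
def F1 (q : ℝ → ℝ) (c : ℝ) : ℝ := deriv q c / q c

/-- second derivative of `log q` -/
def F2 (q : ℝ → ℝ) (c : ℝ) : ℝ := (deriv (deriv q) c * q c - deriv q c * deriv q c) / q c ^ 2

theorem zex (d2 : D2Stmt) (wnd : WndStmt) (lft : LftStmt) : ZexStmt := by
  intro q hq hpos h1 hm1 hnd hex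
  have hq' : ContDiff ℝ ∞ (deriv q) := (contDiff_infty_iff_deriv.1 hq).2
  have hq'' : ContDiff ℝ ∞ (deriv (deriv q)) := (contDiff_infty_iff_deriv.1 hq').2
  have hdq : ∀ c, HasDerivAt q (deriv q c) c := fun c =>
    ((hq.differentiable (by simp)) c).hasDerivAt
  have hdq' : ∀ c, HasDerivAt (deriv q) (deriv (deriv q) c) c := fun c =>
    ((hq'.differentiable (by simp)) c).hasDerivAt
  set U : Set ℝ := {c | 0 < q c} with hUdef
  have hUo : IsOpen U := isOpen_lt continuous_const hq.continuous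
  have hU : ∀ x : S4, ⟪ee 4, (x : E5)⟫_ℝ ∈ U := by
    intro x
    rw [inner_ee']
    exact hpos _ (coord_mem x)
  have hF : ContDiffOn ℝ ∞ (fun c => Real.log (q c)) U :=
    hq.contDiffOn.log fun c hc => (show 0 < q c from hc).ne'
  have hF1 : ∀ c ∈ U, HasDerivAt (fun c => Real.log (q c)) (F1 q c) c := by
    intro c hc
    exact (hdq c).log (show 0 < q c from hc).ne'
  have hF2 : ∀ c ∈ U, HasDerivAt (F1 q) (F2 q c) c := by
    intro c hc
    exact (hdq' c).div (hdq c) (show 0 < q c from hc).ne'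
  obtain ⟨hSm, hLap⟩ := sphLaplacian_zonal (ee 4) U hUo hU (fun c => Real.log (q c)) (F1 q) (F2 q)
    hF hF1 hF2
  have hcosU : ∀ φ, Real.cos φ ∈ U := fun φ =>
    hpos _ ⟨Real.neg_one_le_cos φ, Real.cos_le_one φ⟩
  have hqc : ∀ φ, 0 < q (Real.cos φ) := hcosU
  -- the function
  set ψ : S4 → ℝ := fun x => Real.log (q ((x : E5) 4)) with hψdef
  have hψe : (fun x : S4 => (fun c => Real.log (q c)) ⟪ee 4, (x : E5)⟫_ℝ) = ψ := by
    funext x
    simp only [hψdef, inner_ee']
  rw [hψe] at hSm hLap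
  have hInv : Inv P2 ψ := by
    intro x
    show Real.log (q (((act P2.reflection x : S4) : E5) 4)) = Real.log (q ((x : E5) 4))
    rw [refl_four]
  -- the two components
  set X : ℝ → ℝ := fun φ => -((1 - Real.cos φ ^ 2) * F2 q (Real.cos φ) -
    4 * Real.cos φ * F1 q (Real.cos φ)) with hXdef
  set Y : ℝ → ℝ := fun φ => F1 q (Real.cos φ) * (-Real.sin φ) with hYdef
  have hXl : ∀ φ, -(sphLaplacian ψ (cir φ)) = X φ := by
    intro φ
    rw [hLap]
    simp only [inner_ee', norm_ee, cir_four, hXdef, one_pow]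
  have hYd : ∀ φ, dd ψ (cir φ) (cid φ) = Y φ := by
    intro φ
    have h := Pool.Agent.FLX.H59.dd_comp_at (sm_coord 4) (φ := fun c => Real.log (q c)) (φ' := F1 q (Real.cos φ))
      (x := cir φ) (by rw [cir_four]; exact hF1 _ (hcosU φ)) (cid φ)
    rw [dd_coord, cir_cid, cid_four, mul_zero, sub_zero] at h
    exact h
  have hcF1 : ContDiff ℝ ∞ fun φ => F1 q (Real.cos φ) :=
    (hq'.comp Real.contDiff_cos).div (hq.comp Real.contDiff_cos) fun φ => (hqc φ).ne'
  have hcF2 : ContDiff ℝ ∞ fun φ => F2 q (Real.cos φ) := by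
    refine ContDiff.div ?_ ((hq.comp Real.contDiff_cos).pow 2) fun φ => (pow_pos (hqc φ) 2).ne'
    exact ((hq''.comp Real.contDiff_cos).mul (hq.comp Real.contDiff_cos)).sub
      ((hq'.comp Real.contDiff_cos).mul (hq'.comp Real.contDiff_cos))
  have hXs : ContDiff ℝ ∞ X := by
    refine ContDiff.neg ?_
    exact (((contDiff_const).sub (Real.contDiff_cos.pow 2)).mul hcF2).sub
      ((contDiff_const.mul Real.contDiff_cos).mul hcF1)
  have hYs : ContDiff ℝ ∞ Y := hcF1.mul Real.contDiff_sin.neg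
  -- derivative of Y
  have hYder : ∀ φ, HasDerivAt Y
      (F2 q (Real.cos φ) * Real.sin φ ^ 2 - F1 q (Real.cos φ) * Real.cos φ) φ := by
    intro φ
    have ha : HasDerivAt (fun φ => F1 q (Real.cos φ)) (F2 q (Real.cos φ) * -Real.sin φ) φ :=
      (hF2 _ (hcosU φ)).comp φ (Real.hasDerivAt_cos φ)
    have hb := ha.mul (Real.hasDerivAt_sin φ).neg
    refine hb.congr_deriv ?_
    show F2 q (Real.cos φ) * -Real.sin φ * (-Real.sin φ) + F1 q (Real.cos φ) * -Real.cos φ = _
    ring
  -- the key sign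
  have key : ∀ φ, Y φ = 0 →
      X φ * (F2 q (Real.cos φ) * Real.sin φ ^ 2 - F1 q (Real.cos φ) * Real.cos φ) < 0 := by
    intro φ hφ
    have hsc := Real.sin_sq_add_cos_sq φ
    have hqp := hqc φ
    rcases mul_eq_zero.1 hφ with h | h
    · -- `q' (cos φ) = 0`
      have hq0 : deriv q (Real.cos φ) = 0 := by
        rcases div_eq_zero_iff.1 h with h | h
        · exact h
        · exact absurd h hqp.ne'
      have hc1 : Real.cos φ ≠ 1 := fun hc => h1 (by rw [← hc]; exact hq0)
      have hc2 : Real.cos φ ≠ -1 := fun hc => hm1 (by rw [← hc]; exact hq0)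
      have hmem : Real.cos φ ∈ Ioo (-1 : ℝ) 1 :=
        ⟨lt_of_le_of_ne (Real.neg_one_le_cos φ) (Ne.symm hc2),
          lt_of_le_of_ne (Real.cos_le_one φ) hc1⟩
      have h2 := hnd _ hmem hq0
      have hF2n : F2 q (Real.cos φ) ≠ 0 := by
        unfold F2
        rw [hq0, mul_zero, sub_zero]
        exact div_ne_zero (mul_ne_zero h2 hqp.ne') (pow_ne_zero 2 hqp.ne')
      have hs : 0 < Real.sin φ ^ 2 := by
        have h3 := hmem.1
        have h4 := hmem.2
        nlinarith
      have hX : X φ = -(Real.sin φ ^ 2 * F2 q (Real.cos φ)) := by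
        simp only [hXdef]
        rw [h, show 1 - Real.cos φ ^ 2 = Real.sin φ ^ 2 by linarith]
        ring
      rw [hX, h]
      have h5 : 0 < F2 q (Real.cos φ) ^ 2 := by positivity
      have h6 : -(Real.sin φ ^ 2 * F2 q (Real.cos φ)) *
          (F2 q (Real.cos φ) * Real.sin φ ^ 2 - 0 * Real.cos φ) =
          -(F2 q (Real.cos φ) ^ 2 * (Real.sin φ ^ 2) ^ 2) := by ring
      rw [h6]
      have : 0 < F2 q (Real.cos φ) ^ 2 * (Real.sin φ ^ 2) ^ 2 := by positivity
      linarith
    · -- `sin φ = 0`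
      have hs : Real.sin φ = 0 := by linarith
      have hc : Real.cos φ ^ 2 = 1 := by rw [hs] at hsc; linarith
      have hF1n : F1 q (Real.cos φ) ≠ 0 := by
        refine div_ne_zero ?_ hqp.ne'
        rcases (show Real.cos φ = 1 ∨ Real.cos φ = -1 from by
          have h9 : (Real.cos φ - 1) * (Real.cos φ + 1) = 0 := by linear_combination hc
          rcases mul_eq_zero.1 h9 with h | h
          · left; linarith
          · right; linarith) with h | h
        · rw [h]; exact h1
        · rw [h]; exact hm1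
      simp only [hXdef]
      rw [hs, hc]
      have h5 : 0 < F1 q (Real.cos φ) ^ 2 := by positivity
      have h6 : -((1 - 1) * F2 q (Real.cos φ) - 4 * Real.cos φ * F1 q (Real.cos φ)) *
          (F2 q (Real.cos φ) * 0 ^ 2 - F1 q (Real.cos φ) * Real.cos φ) =
          -(4 * Real.cos φ ^ 2 * F1 q (Real.cos φ) ^ 2) := by ring
      rw [h6, hc]
      linarith
  -- the curve
  have hXder : ∀ φ, HasDerivAt X (deriv X φ) φ := fun φ =>
    ((hXs.differentiable (by simp)) φ).hasDerivAt
  have hYder' : ∀ φ, HasDerivAt Y (deriv Y φ) φ := fun φ =>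
    ((hYs.differentiable (by simp)) φ).hasDerivAt
  have hcX' : Continuous (deriv X) := hXs.continuous_deriv (by simp)
  have hcY' : Continuous (deriv Y) := hYs.continuous_deriv (by simp)
  have hne : ∀ φ, ¬ (X φ = 0 ∧ Y φ = 0) := by
    rintro φ ⟨hx, hy⟩
    have := key φ hy
    rw [hx, zero_mul] at this
    exact lt_irrefl _ this
  obtain ⟨r, α, hr, hα, hrp, hγ⟩ := lft (fun φ => (X φ : ℂ) + (Y φ : ℂ) * Complex.I)
    (fun φ => ((deriv X φ : ℝ) : ℂ) + ((deriv Y φ : ℝ) : ℂ) * Complex.I)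
    (fun φ => (hXder φ).ofReal_comp.add ((hYder' φ).ofReal_comp.mul_const Complex.I))
    ((Complex.continuous_ofReal.comp hcX').add
      ((Complex.continuous_ofReal.comp hcY').mul continuous_const))
    (by
      intro φ h0
      have hre := congrArg Complex.re h0
      have him := congrArg Complex.im h0
      simp at hre him
      exact hne φ ⟨hre, him⟩)
  have hxr : ∀ φ, X φ = r φ * Real.cos (α φ) := by
    intro φ
    have hre := congrArg Complex.re (hγ φ)
    simpa [Complex.exp_ofReal_mul_I_re, Complex.exp_ofReal_mul_I_im] using hre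
  have hyr : ∀ φ, Y φ = r φ * Real.sin (α φ) := by
    intro φ
    have him := congrArg Complex.im (hγ φ)
    simpa [Complex.exp_ofReal_mul_I_re, Complex.exp_ofReal_mul_I_im] using him
  have hW := wnd X Y α r hα hXs.continuous hYs.continuous (fun φ => ⟨hrp φ, hxr φ, hyr φ⟩)
    (fun φ hφ => ⟨_, hYder φ, key φ hφ⟩)
  obtain ⟨s, hs, hs0⟩ := hex
  set φ₁ := Real.arccos s with hφ₁
  have hcos : Real.cos φ₁ = s := Real.cos_arccos hs.1.le hs.2.le
  have hφ0 : 0 < φ₁ := Real.arccos_pos.2 hs.2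
  have hφπ : φ₁ < Real.pi := by
    rcases lt_or_eq_of_le (Real.arccos_le_pi s) with h | h
    · exact h
    · exfalso
      rw [← hφ₁] at h
      rw [h, Real.cos_pi] at hcos
      linarith [hs.1]
  have z0 : Y 0 = 0 := by simp [hYdef]
  have z1 : Y φ₁ = 0 := by simp [hYdef, hcos, F1, hs0]
  have z2 : Y Real.pi = 0 := by simp [hYdef]
  have z3 : Y (2 * Real.pi - φ₁) = 0 := by
    have : Real.cos (2 * Real.pi - φ₁) = s := by rw [Real.cos_two_pi_sub, hcos]
    simp [hYdef, this, F1, hs0]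
  have z4 : Y (2 * Real.pi) = 0 := by simp [hYdef]
  have w1 := hW 0 φ₁ hφ0 z0 z1
  have w2 := hW φ₁ Real.pi hφπ z1 z2
  have w3 := hW Real.pi (2 * Real.pi - φ₁) (by linarith) z2 z3
  have w4 := hW (2 * Real.pi - φ₁) (2 * Real.pi) (by linarith) z3 z4
  have hfin := d2 ψ r α hSm hInv hr hα
    (fun φ => ⟨hrp φ, by rw [hXl, hxr], by rw [hYd, hyr]⟩) (by
      have := Real.pi_pos
      intro h
      linarith)
  have heq : (fun x : S4 => Real.exp (ψ x)) = fun x : S4 => q ((x : E5) 4) := by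
    funext x
    exact Real.exp_log (hpos _ (coord_mem x))
  rw [heq] at hfin
  exact hfin

end Pool.Agent.PQP.H71
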