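import Pool.Agent.PQP.StmtsE

/-!
# Squad PQP, row SPE (small powers, existence at a nondegenerate critical point of `Hx ψ`)
-/

set_option autoImplicit false

open scoped InnerProductSpace Topology ContDiff Manifold
open MeasureTheory Filter Set

noncomputable section

namespace Pool.Agent.PQP.H71

open Pool.Agent.Helper42_Paneitz Pool.Agent.Helper82_Vir Pool.Agent.FLX

/-- the inner product as a continuous bilinear map -/
def inn : E5 →L[ℝ] E5 →L[ℝ] ℝ :=
  LinearMap.toContinuousLinearMap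
    { toFun := fun v => innerSL ℝ v
      map_add' := fun u v => by ext w; simp
      map_smul' := fun c v => by ext w; simp }

theorem inn_apply (v : E5) : inn v = innerSL ℝ v := rfl

theorem inn_inj (v : E5) (h : inn v = 0) : v = 0 := by
  have h1 : (inn v) v = 0 := by rw [h]; rfl
  rw [inn_apply] at h1
  simpa using h1

/-- the linear map of the gradient formula -/
def PhiM (b u : E5) : E5 :=
  (4 / (msig * (1 - ‖b‖ ^ 2))) • (sq b • u + (⟪b, u⟫_ℝ / (1 + sq b)) • b)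

theorem sq_pos (b : E5) (hb : ‖b‖ < 1) : 0 < sq b := by
  unfold Pool.Agent.FLX.sq
  apply Real.sqrt_pos.2
  have := norm_nonneg b
  nlinarith

theorem sq_sq (b : E5) (hb : ‖b‖ < 1) : sq b ^ 2 = 1 - ‖b‖ ^ 2 := by
  unfold Pool.Agent.FLX.sq
  apply Real.sq_sqrt
  have := norm_nonneg b
  nlinarith

theorem PhiM_inj (b u : E5) (hb : ‖b‖ < 1) (h : PhiM b u = 0) : u = 0 := by
  have hs := sq_pos b hb
  have hs2 := sq_sq b hb
  have hc : (4 / (msig * (1 - ‖b‖ ^ 2))) ≠ 0 := by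
    have h1 : 0 < 1 - ‖b‖ ^ 2 := by rw [← hs2]; positivity
    have := msig_pos
    positivity
  have h1 : sq b • u + (⟪b, u⟫_ℝ / (1 + sq b)) • b = 0 := by
    unfold PhiM at h
    exact (smul_eq_zero.1 h).resolve_left hc
  have h2 : ⟪b, sq b • u + (⟪b, u⟫_ℝ / (1 + sq b)) • b⟫_ℝ = 0 := by rw [h1]; simp
  rw [inner_add_right, inner_smul_right, inner_smul_right, real_inner_self_eq_norm_sq] at h2
  have h3 : ⟪b, u⟫_ℝ = 0 := by
    have h4 : (1 + sq b) ≠ 0 := by positivity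
    have h5 : ‖b‖ ^ 2 = 1 - sq b ^ 2 := by linarith
    rw [h5] at h2
    have h6 : sq b * ⟪b, u⟫_ℝ + ⟪b, u⟫_ℝ / (1 + sq b) * (1 - sq b ^ 2) = ⟪b, u⟫_ℝ := by
      field_simp
      ring
    rw [h6] at h2
    exact h2
  rw [h3] at h1
  simp only [zero_div, zero_smul, add_zero] at h1
  exact (smul_eq_zero.1 h1).resolve_left hs.ne'

theorem spe (spa : SpaStmt) (grh : GrhStmt) : SpeStmt := by
  intro ψ b₀ hψ hb₀ hcrit hnd
  -- the balancing field vanishes at b₀
  have hB : bal ψ b₀ = 0 := by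
    have h1 := (grh ψ b₀ hψ hb₀).1.fderiv
    rw [hcrit] at h1
    exact PhiM_inj b₀ _ hb₀ (inn_inj _ h1.symm)
  have hL : HasFDerivAt (bal ψ) (fderiv ℝ (bal ψ) b₀) b₀ :=
    ((grh ψ b₀ hψ hb₀).2.differentiableAt (by norm_num)).hasFDerivAt
  refine spa ψ b₀ (fderiv ℝ (bal ψ) b₀) hψ hb₀ hB hL ?_
  set L := fderiv ℝ (bal ψ) b₀ with hLdef
  -- injectivity
  intro v₁ v₂ h12
  suffices h : v₁ - v₂ = 0 from sub_eq_zero.1 h
  have hv : L (v₁ - v₂) = 0 := by rw [map_sub, h12, sub_self]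
  generalize v₁ - v₂ = v at hv
  apply hnd
  intro w
  -- the derivative near b₀
  have hev : fderiv ℝ (Hx ψ) =ᶠ[𝓝 b₀] fun b => inn (PhiM b (bal ψ b)) := by
    have hmem : Metric.ball (0 : E5) 1 ∈ 𝓝 b₀ := Metric.isOpen_ball.mem_nhds (by simpa using hb₀)
    filter_upwards [hmem] with b hb
    have hb' : ‖b‖ < 1 := by simpa using hb
    exact (grh ψ b hψ hb').1.fderiv
  have hs := sq_pos b₀ hb₀
  have hs2 := sq_sq b₀ hb₀
  have hn : HasFDerivAt (fun b : E5 => 1 - ‖b‖ ^ 2) (-(2 • (innerSL ℝ b₀))) b₀ := by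
    have := (hasStrictFDerivAt_norm_sq b₀).hasFDerivAt
    simpa using this.const_sub 1
  have hpos : 0 < 1 - ‖b₀‖ ^ 2 := by rw [← hs2]; positivity
  have hsd : DifferentiableAt ℝ sq b₀ := by
    have : sq = fun b : E5 => √(1 - ‖b‖ ^ 2) := rfl
    rw [this]
    exact (hn.differentiableAt).sqrt hpos.ne'
  have hcd : DifferentiableAt ℝ (fun b : E5 => 4 / (msig * (1 - ‖b‖ ^ 2))) b₀ := by
    have hne : msig * (1 - ‖b₀‖ ^ 2) ≠ 0 := by
      have := msig_pos
      positivity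
    have h0 : DifferentiableAt ℝ (fun b : E5 => msig * (1 - ‖b‖ ^ 2)) b₀ :=
      hn.differentiableAt.const_mul msig
    have h9 : DifferentiableAt ℝ (fun b : E5 => (msig * (1 - ‖b‖ ^ 2))⁻¹) b₀ := h0.inv hne
    simpa only [div_eq_mul_inv] using h9.const_mul 4
  have hid : HasFDerivAt (fun b : E5 => b) (ContinuousLinearMap.id ℝ E5) b₀ := hasFDerivAt_id b₀
  have h1 : HasFDerivAt (fun b => sq b • bal ψ b)
      (sq b₀ • L + (fderiv ℝ sq b₀).smulRight (bal ψ b₀)) b₀ := hsd.hasFDerivAt.smul hL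
  have h2 : HasFDerivAt (fun b => ⟪b, bal ψ b⟫_ℝ)
      ((fderivInnerCLM ℝ (b₀, bal ψ b₀)).comp ((ContinuousLinearMap.id ℝ E5).prod L)) b₀ :=
    hid.inner ℝ hL
  have h3 : DifferentiableAt ℝ (fun b => (1 + sq b)⁻¹) b₀ :=
    (hsd.const_add 1).inv (by positivity)
  have h4 := h2.mul h3.hasFDerivAt
  have h5 := h4.smul hid
  have h6 := hcd.hasFDerivAt.smul (h1.add h5)
  have h7 := (inn.hasFDerivAt (x := PhiM b₀ (bal ψ b₀))).comp b₀ h6
  have h8 := (h7.congr_of_eventuallyEq hev).fderiv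
  rw [h8]
  simp [hB, hv]

end Pool.Agent.PQP.H71
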